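import Pool.Agent.Helper52.CY.Scherk

/-!
# Zero-sum sequences and costs
-/

set_option autoImplicit false

open scoped Pointwise

namespace Pool.Agent.Helper52.CY

section
variable {G : Type*} [AddCommGroup G] [Fintype G] [DecidableEq G] (u : G → ℕ)

open Classical in
/-- the elements of cost at most `t` -/
noncomputable def Bt (t : ℕ) : Finset G :=
  Finset.univ.filter (fun a => ∃ v : G → ℕ, v 0 = 0 ∧ ∑ j, v j * u j ≤ t ∧ ∑ j, v j • j = a)

omit [DecidableEq G] in
theorem mem_Bt {t : ℕ} {a : G} :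
    a ∈ Bt u t ↔ ∃ v : G → ℕ, v 0 = 0 ∧ ∑ j, v j * u j ≤ t ∧ ∑ j, v j • j = a := by
  simp [Bt]

theorem zero_mem_Bt (t : ℕ) : (0 : G) ∈ Bt u t :=
  (mem_Bt u).2 ⟨0, rfl, by simp, by simp⟩

theorem card_Bt_add {R : ℕ}
    (H : ∀ v : G → ℕ, v 0 = 0 → v ≠ 0 → ∑ j, v j • j = 0 → R ≤ ∑ j, v j * u j)
    {t t' : ℕ} (h : t + t' < R) : (Bt u t).card + (Bt u t').card ≤ (Bt u (t + t')).card + 1 := by
  have h1 : Bt u t + Bt u t' ⊆ Bt u (t + t') := by
    intro x hx
    obtain ⟨a, ha, b, hb, rfl⟩ := Finset.mem_add.1 hx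
    obtain ⟨v, hv0, hv1, hv2⟩ := (mem_Bt u).1 ha
    obtain ⟨w, hw0, hw1, hw2⟩ := (mem_Bt u).1 hb
    refine (mem_Bt u).2 ⟨v + w, by simp [hv0, hw0], ?_, ?_⟩
    · simp only [Pi.add_apply, add_mul, Finset.sum_add_distrib]
      exact add_le_add hv1 hw1
    · simp only [Pi.add_apply, add_smul, Finset.sum_add_distrib, hv2, hw2]
  refine (scherk (Bt u t) (Bt u t') (zero_mem_Bt u t) (zero_mem_Bt u t') ?_).trans
    (Nat.add_le_add_right (Finset.card_le_card h1) 1)
  intro a ha b hb hab
  obtain ⟨v, hv0, hv1, hv2⟩ := (mem_Bt u).1 ha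
  obtain ⟨w, hw0, hw1, hw2⟩ := (mem_Bt u).1 hb
  by_contra hne
  have hvw : v + w ≠ 0 := by
    intro h0
    have hv : v = 0 := by
      funext j
      have := congrFun h0 j
      simp only [Pi.add_apply, Pi.zero_apply] at this ⊢
      omega
    apply hne
    rw [← hv2, hv]
    simp
  have h2 := H (v + w) (by simp [hv0, hw0]) hvw (by
    simp only [Pi.add_apply, add_smul, Finset.sum_add_distrib, hv2, hw2, hab])
  simp only [Pi.add_apply, add_mul, Finset.sum_add_distrib] at h2
  omega

theorem card_Bt_mul {R : ℕ}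
    (H : ∀ v : G → ℕ, v 0 = 0 → v ≠ 0 → ∑ j, v j • j = 0 → R ≤ ∑ j, v j * u j)
    {t U N : ℕ} (hU : N + 1 ≤ (Bt u U).card) (q : ℕ) (h : t + q * U < R) :
    (Bt u t).card + q * N ≤ (Bt u (t + q * U)).card := by
  induction q with
  | zero => simp
  | succ q ih =>
    have h1 : t + q * U < R := by
      have : q * U ≤ (q + 1) * U := Nat.mul_le_mul_right _ (Nat.le_succ q)
      omega
    have h2 := ih h1
    have h3 := card_Bt_add u H (t := t + q * U) (t' := U) (by
      rw [add_mul, one_mul] at h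
      omega)
    have h4 : t + (q + 1) * U = t + q * U + U := by ring
    rw [h4]
    have h5 : (q + 1) * N = q * N + N := by ring
    omega

/-- the sum of the remainders -/
theorem sum_mod {m N : ℕ} (hN : 0 < N) (hNm : N ≤ m) (w : ℕ → ℕ) :
    ∑ i ∈ Finset.Icc 1 N, w ((m - i) % N) = ∑ r ∈ Finset.range N, w r := by
  have hinj : Set.InjOn (fun i => (m - i) % N) (Finset.Icc 1 N : Finset ℕ) := by
    intro i hi j hj hij
    simp only [Finset.coe_Icc, Set.mem_Icc] at hi hj
    have h1 : ((m - i : ℕ) : ℤ) ≡ ((m - j : ℕ) : ℤ) [ZMOD N] := by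
      rw [Int.natCast_modEq_iff]
      exact hij
    have h2 : (N : ℤ) ∣ (i : ℤ) - j := by
      have := h1.dvd
      rw [Nat.cast_sub (by omega), Nat.cast_sub (by omega)] at this
      have h3 : ((m : ℤ) - j - (m - i)) = i - j := by ring
      rwa [h3] at this
    have h3 : ((i : ℤ) - j) = 0 := by
      apply Int.eq_zero_of_abs_lt_dvd h2
      rw [abs_lt]
      constructor <;> omega
    omega
  have himg : (Finset.Icc 1 N).image (fun i => (m - i) % N) = Finset.range N := by
    apply Finset.eq_of_subset_of_card_le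
    · intro r hr
      obtain ⟨i, -, rfl⟩ := Finset.mem_image.1 hr
      exact Finset.mem_range.2 (Nat.mod_lt _ hN)
    · rw [Finset.card_image_of_injOn hinj]
      simp
  rw [← himg, Finset.sum_image hinj]

theorem sum_div {m N : ℕ} (hN : 0 < N) (hNm : N ≤ m) :
    ∑ i ∈ Finset.Icc 1 N, (m - i) / N = m - N := by
  have h1 : ∑ i ∈ Finset.Icc 1 N, (m - i) = N * ∑ i ∈ Finset.Icc 1 N, (m - i) / N +
      ∑ i ∈ Finset.Icc 1 N, (m - i) % N := by
    rw [Finset.mul_sum, ← Finset.sum_add_distrib]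
    exact Finset.sum_congr rfl fun i _ => (Nat.div_add_mod _ _).symm
  rw [sum_mod hN hNm (fun r => r)] at h1
  have h2 : ∑ i ∈ Finset.Icc 1 N, (m - i) + ∑ i ∈ Finset.Icc 1 N, i = N * m := by
    rw [← Finset.sum_add_distrib, Finset.sum_congr rfl (g := fun _ => m) (fun i hi => by
      have := Finset.mem_Icc.1 hi
      omega)]
    simp
  have h3 : ∑ i ∈ Finset.Icc 1 N, i = ∑ i ∈ Finset.range N, i + N := by
    rw [← Finset.sum_range_succ, Finset.range_eq_Ico, Finset.sum_eq_sum_Ico_succ_bot (by omega)]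
    rw [zero_add]
    rfl
  have h4 := Finset.sum_range_id_mul_two N
  have h5 : N * (∑ i ∈ Finset.Icc 1 N, (m - i) / N + N) = N * m := by
    have h6 : N * (N - 1) + N = N * N := by
      obtain ⟨k, rfl⟩ : ∃ k, N = k + 1 := ⟨N - 1, by omega⟩
      simp only [Nat.add_sub_cancel]
      ring
    rw [mul_add]
    omega
  have h6 := Nat.eq_of_mul_eq_mul_left hN h5
  omega

/-- **The cost inequality.** -/
theorem cost {m R : ℕ} (hG : Fintype.card G = m)
    (H : ∀ v : G → ℕ, v 0 = 0 → v ≠ 0 → ∑ j, v j • j = 0 → R ≤ ∑ j, v j * u j)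
    {N : ℕ} (hN : 0 < N) (g : ℕ → G) (hinj : ∀ i ∈ Finset.Icc 1 N, ∀ j ∈ Finset.Icc 1 N,
      g i = g j → i = j) (hg0 : ∀ i ∈ Finset.Icc 1 N, g i ≠ 0)
    (hmono : ∀ i ∈ Finset.Icc 1 N, ∀ j ∈ Finset.Icc 1 N, i ≤ j → u (g i) ≤ u (g j)) :
    N * R + u (g N) ≤ 2 * ∑ i ∈ Finset.Icc 1 N, u (g i) + (m - N) * u (g N) := by
  set w : ℕ → ℕ := fun i => if i = 0 then 0 else u (g i) with hw
  have hw0 : w 0 = 0 := by simp [hw]
  have hwpos : ∀ i ∈ Finset.Icc 1 N, w i = u (g i) := by
    intro i hi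
    have := Finset.mem_Icc.1 hi
    simp only [hw]
    rw [if_neg (by omega)]
  have hcard : ∀ i ≤ N, i + 1 ≤ (Bt u (w i)).card := by
    intro i hi
    have h1 : ((Finset.range (i + 1)).image (fun l => if l = 0 then 0 else g l)) ⊆
        Bt u (w i) := by
      intro x hx
      obtain ⟨l, hl, rfl⟩ := Finset.mem_image.1 hx
      have hl' := Finset.mem_range.1 hl
      by_cases h0 : l = 0
      · simp only [h0, if_true]
        exact zero_mem_Bt u _
      · simp only [h0, if_false]
        have hlm : l ∈ Finset.Icc 1 N := Finset.mem_Icc.2 ⟨by omega, by omega⟩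
        have him : i ∈ Finset.Icc 1 N := Finset.mem_Icc.2 ⟨by omega, by omega⟩
        refine (mem_Bt u).2 ⟨Pi.single (g l) 1, ?_, ?_, ?_⟩
        · rw [Pi.single_apply, if_neg (hg0 l hlm).symm]
        · rw [Finset.sum_eq_single (g l)]
          · rw [Pi.single_eq_same, one_mul, hwpos i him]
            exact hmono l hlm i him (by omega)
          · intro b _ hb
            rw [Pi.single_eq_of_ne hb, zero_mul]
          · simp
        · rw [Finset.sum_eq_single (g l)]
          · rw [Pi.single_eq_same, one_smul]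
          · intro b _ hb
            rw [Pi.single_eq_of_ne hb, zero_smul]
          · simp
    refine le_trans ?_ (Finset.card_le_card h1)
    rw [Finset.card_image_of_injOn]
    · simp
    · intro a ha b hb hab
      simp only [Finset.coe_range, Set.mem_Iio] at ha hb
      simp only at hab
      by_cases ha0 : a = 0
      · by_cases hb0 : b = 0
        · rw [ha0, hb0]
        · rw [if_pos ha0, if_neg hb0] at hab
          exact absurd hab.symm (hg0 b (Finset.mem_Icc.2 ⟨by omega, by omega⟩))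
      · by_cases hb0 : b = 0
        · rw [if_neg ha0, if_pos hb0] at hab
          exact absurd hab (hg0 a (Finset.mem_Icc.2 ⟨by omega, by omega⟩))
        · rw [if_neg ha0, if_neg hb0] at hab
          exact hinj a (Finset.mem_Icc.2 ⟨by omega, by omega⟩) b
            (Finset.mem_Icc.2 ⟨by omega, by omega⟩) hab
  have hNm : N + 1 ≤ m := by
    rw [← hG]
    exact (hcard N le_rfl).trans (Finset.card_le_univ _)
  have key : ∀ i ∈ Finset.Icc 1 N, R ≤ w i + (m - i) / N * w N + w ((m - i) % N) := by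
    intro i hi
    have hi' := Finset.mem_Icc.1 hi
    by_contra hcon
    push Not at hcon
    set q := (m - i) / N with hq
    set r := (m - i) % N with hr
    have hrN : r < N := Nat.mod_lt _ hN
    have h1 := card_Bt_add u H (t := w i) (t' := w r) (by omega)
    have h2 := card_Bt_mul u H (t := w i + w r) (U := w N) (hcard N le_rfl) q (by omega)
    have h3 := hcard i hi'.2
    have h4 := hcard r hrN.le
    have h5 : (Bt u (w i + w r + q * w N)).card ≤ m := by
      rw [← hG]
      exact Finset.card_le_univ _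
    have h6 : N * q + r = m - i := Nat.div_add_mod _ _
    have h7 : q * N = N * q := mul_comm _ _
    omega
  have hsum := Finset.sum_le_sum key
  rw [Finset.sum_add_distrib, Finset.sum_add_distrib, ← Finset.sum_mul,
    sum_mod hN (by omega) w, sum_div hN (by omega)] at hsum
  have h1 : ∑ _i ∈ Finset.Icc 1 N, R = N * R := by simp
  have h2 : ∑ i ∈ Finset.Icc 1 N, w i = ∑ i ∈ Finset.Icc 1 N, u (g i) :=
    Finset.sum_congr rfl hwpos
  have h3 : ∑ i ∈ Finset.range N, w i + u (g N) = ∑ i ∈ Finset.Icc 1 N, u (g i) := by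
    rw [← hwpos N (Finset.mem_Icc.2 ⟨hN, le_rfl⟩), ← Finset.sum_range_succ,
      Finset.range_eq_Ico, Finset.sum_eq_sum_Ico_succ_bot (by omega), hw0, zero_add, ← h2]
    rfl
  have h4 : w N = u (g N) := hwpos N (Finset.mem_Icc.2 ⟨hN, le_rfl⟩)
  rw [h1, h2, h4] at hsum
  omega

end

end Pool.Agent.Helper52.CY
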