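import Mathlib

/-!
# Scherk's theorem
-/

set_option autoImplicit false

open scoped Pointwise

namespace Pool.Agent.Helper52.CY

/-- **Scherk's theorem.** If `0` has the only representation `0 + 0` in `A + B` then
`#(A + B) ≥ #A + #B - 1`. -/
theorem scherk {G : Type*} [AddCommGroup G] [DecidableEq G] (A B : Finset G)
    (hA : (0 : G) ∈ A) (hB : (0 : G) ∈ B) (h : ∀ a ∈ A, ∀ b ∈ B, a + b = 0 → a = 0) :
    A.card + B.card ≤ (A + B).card + 1 := by
  induction hn : B.card using Nat.strong_induction_on generalizing A B with
  | _ n ih =>
    by_cases hB1 : ∃ b ∈ B, b ≠ 0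
    · obtain ⟨b, hb, hb0⟩ := hB1
      -- some `a ∈ A` with `a + b ∉ A`
      have hex : ∃ a ∈ A, a + b ∉ A := by
        by_contra hcon
        push Not at hcon
        have hsub : A.image (· + b) ⊆ A := by
          intro x hx
          obtain ⟨a, ha, rfl⟩ := Finset.mem_image.1 hx
          exact hcon a ha
        have heq : A.image (· + b) = A := Finset.eq_of_subset_of_card_le hsub (by
          rw [Finset.card_image_of_injective _ (add_left_injective b)])
        have h0 : (0 : G) ∈ A.image (· + b) := by rw [heq]; exact hA
        obtain ⟨a, ha, hab⟩ := Finset.mem_image.1 h0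
        have ha0 := h a ha b hb hab
        subst ha0
        simp only [zero_add] at hab
        exact hb0 hab
      obtain ⟨a, ha, hab⟩ := hex
      set A' : Finset G := A ∪ B.image (· + a) with hA'
      set B' : Finset G := B.filter (fun x => x + a ∈ A) with hB'
      have hcard : A'.card + B'.card = A.card + B.card := by
        have h1 := Finset.card_union_add_card_inter A (B.image (· + a))
        rw [Finset.card_image_of_injective _ (add_left_injective a)] at h1
        have h2 : A ∩ B.image (· + a) = B'.image (· + a) := by
          ext x
          simp only [Finset.mem_inter, Finset.mem_image, hB', Finset.mem_filter]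
          constructor
          · rintro ⟨hx, y, hy, rfl⟩
            exact ⟨y, ⟨hy, hx⟩, rfl⟩
          · rintro ⟨y, ⟨hy, hy'⟩, rfl⟩
            exact ⟨hy', y, hy, rfl⟩
        rw [h2, Finset.card_image_of_injective _ (add_left_injective a)] at h1
        exact h1
      have hlt : B'.card < n := by
        rw [← hn]
        refine Finset.card_lt_card ⟨Finset.filter_subset _ _, fun hsub => ?_⟩
        have := (Finset.mem_filter.1 (hsub hb)).2
        exact hab (by rwa [add_comm])
      have hsum : A' + B' ⊆ A + B := by
        intro x hx
        obtain ⟨u, hu, v, hv, rfl⟩ := Finset.mem_add.1 hx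
        have hv' := Finset.mem_filter.1 hv
        rcases Finset.mem_union.1 hu with hu | hu
        · exact Finset.add_mem_add hu hv'.1
        · obtain ⟨y, hy, rfl⟩ := Finset.mem_image.1 hu
          refine Finset.mem_add.2 ⟨v + a, hv'.2, y, hy, ?_⟩
          abel
      have hzero : ∀ u ∈ A', ∀ v ∈ B', u + v = 0 → u = 0 := by
        intro u hu v hv huv
        have hv' := Finset.mem_filter.1 hv
        rcases Finset.mem_union.1 hu with hu | hu
        · exact h u hu v hv'.1 huv
        · obtain ⟨y, hy, rfl⟩ := Finset.mem_image.1 hu
          have h1 : (v + a) + y = 0 := by rw [← huv]; abel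
          have h2 := h (v + a) hv'.2 y hy h1
          have h3 := h a ha v hv'.1 (by rw [← h2]; abel)
          have hy0 : y = 0 := by rwa [h2, zero_add] at h1
          simp only [hy0, h3, add_zero]
      have h0A' : (0 : G) ∈ A' := Finset.mem_union_left _ hA
      have h0B' : (0 : G) ∈ B' := Finset.mem_filter.2 ⟨hB, by simpa using ha⟩
      have key := ih B'.card hlt A' B' h0A' h0B' hzero rfl
      have hle := Finset.card_le_card hsum
      omega
    · push Not at hB1
      have hB0 : B = {0} := by
        ext x
        simp only [Finset.mem_singleton]
        exact ⟨hB1 x, fun hx => hx ▸ hB⟩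
      subst hn
      rw [hB0]
      simp

end Pool.Agent.Helper52.CY
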