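import Pool.Agent.Helper52.CY.Cost
import Pool.Agent.Helper9.CY.Types

/-!
# The bound for survivors
-/

set_option autoImplicit false

open scoped Pointwise

namespace Pool.Agent.Helper52.CY

theorem exists_enum {G : Type*} [DecidableEq G] [Nonempty G] (u : G → ℕ) (N : ℕ) :
    ∀ J : Finset G, J.card = N → ∃ g : ℕ → G, (∀ i ∈ Finset.Icc 1 N, g i ∈ J) ∧
      (∀ i ∈ Finset.Icc 1 N, ∀ j ∈ Finset.Icc 1 N, g i = g j → i = j) ∧
      (∀ i ∈ Finset.Icc 1 N, ∀ j ∈ Finset.Icc 1 N, i ≤ j → u (g i) ≤ u (g j)) := by
  induction N with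
  | zero =>
    intro J hJ
    obtain ⟨x⟩ := ‹Nonempty G›
    refine ⟨fun _ => x, ?_, ?_, ?_⟩ <;>
    · intro i hi
      have := Finset.mem_Icc.1 hi
      omega
  | succ N ih =>
    intro J hJ
    have hne : J.Nonempty := Finset.card_pos.1 (by omega)
    obtain ⟨x, hx, hmax⟩ := Finset.exists_max_image J u hne
    obtain ⟨g, h1, h2, h3⟩ := ih (J.erase x) (by rw [Finset.card_erase_of_mem hx]; omega)
    have hg : ∀ i ∈ Finset.Icc 1 (N + 1), i ≠ N + 1 → i ∈ Finset.Icc 1 N := by
      intro i hi hne
      have := Finset.mem_Icc.1 hi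
      exact Finset.mem_Icc.2 ⟨by omega, by omega⟩
    refine ⟨fun i => if i = N + 1 then x else g i, ?_, ?_, ?_⟩
    · intro i hi
      by_cases h : i = N + 1
      · simp only [h, if_true]
        exact hx
      · simp only [h, if_false]
        exact Finset.mem_of_mem_erase (h1 i (hg i hi h))
    · intro i hi j hj hij
      by_cases h : i = N + 1
      · by_cases h' : j = N + 1
        · rw [h, h']
        · simp only [h, h', if_true, if_false] at hij
          have := h1 j (hg j hj h')
          rw [← hij] at this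
          exact absurd rfl (Finset.ne_of_mem_erase this)
      · by_cases h' : j = N + 1
        · simp only [h, h', if_true, if_false] at hij
          have := h1 i (hg i hi h)
          rw [hij] at this
          exact absurd rfl (Finset.ne_of_mem_erase this)
        · simp only [h, h', if_false] at hij
          exact h2 i (hg i hi h) j (hg j hj h') hij
    · intro i hi j hj hij
      by_cases h' : j = N + 1
      · by_cases h : i = N + 1
        · simp [h, h']
        · simp only [h, h', if_true, if_false]
          exact hmax _ (Finset.mem_of_mem_erase (h1 i (hg i hi h)))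
      · have h : i ≠ N + 1 := by
          have := Finset.mem_Icc.1 hj
          omega
        simp only [h, h', if_false]
        exact h3 i (hg i hi h) j (hg j hj h') hij

/-- remainders of the multiples of a number prime to `m` -/
theorem rem_ineq {m d N : ℕ} (hN : 0 < N) (hNm : N < m) (hd : m.Coprime d) :
    N * m ≤ (m - N - 1) * (N * d % m) + 2 * ∑ i ∈ Finset.Icc 1 N, (i * d % m) := by
  set f : ℕ → ℕ := fun i => i * d % m with hf
  have hfi : ∀ i, i * d % m = f i := fun _ => rfl
  have hm : 0 < m := by omega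
  have hlt : ∀ i, f i < m := fun i => Nat.mod_lt _ hm
  have hinj : ∀ i < m, ∀ j < m, f i = f j → i = j := by
    intro i hi j hj hij
    have h1 : i * d ≡ j * d [MOD m] := hij
    have h2 : i ≡ j [MOD m] := Nat.ModEq.cancel_right_of_coprime hd h1
    exact Nat.ModEq.eq_of_lt_of_lt h2 hi hj
  have hf0 : f 0 = 0 := by simp [hf]
  have hpos : ∀ i, 0 < i → i < m → 0 < f i := by
    intro i hi him
    rcases Nat.eq_zero_or_pos (f i) with h | h
    · exact absurd (hinj i him 0 hm (by rw [h, hf0])) (by omega)
    · exact h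
  -- pairs
  have hpair : ∀ i ∈ Finset.Ico 1 N, f N + (if f N < f i then m else 0) ≤ f i + f (N - i) := by
    intro i hi
    have hi' := Finset.mem_Ico.1 hi
    have h1 : f N ≡ f i + f (N - i) [MOD m] := by
      have : N * d = i * d + (N - i) * d := by rw [← add_mul]; congr 1; omega
      calc f N ≡ N * d [MOD m] := Nat.mod_modEq _ _
        _ = i * d + (N - i) * d := this
        _ ≡ f i + f (N - i) [MOD m] :=
          Nat.ModEq.add (Nat.mod_modEq _ _).symm (Nat.mod_modEq _ _).symm
    have h2 := hlt N
    have h3 := hlt i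
    have h4 := hlt (N - i)
    have h5 : f N = (f i + f (N - i)) % m := by
      rw [← Nat.mod_eq_of_lt h2]
      exact h1
    by_cases hs : f i + f (N - i) < m
    · rw [Nat.mod_eq_of_lt hs] at h5
      rw [if_neg (by omega)]
      omega
    · rw [Nat.mod_eq_sub_mod (by omega), Nat.mod_eq_of_lt (by omega)] at h5
      split_ifs <;> omega
  have hrefl : ∑ i ∈ Finset.Ico 1 N, f (N - i) = ∑ i ∈ Finset.Ico 1 N, f i := by
    refine Finset.sum_nbij' (fun i => N - i) (fun i => N - i) ?_ ?_ ?_ ?_ ?_
    · intro i hi
      have := Finset.mem_Ico.1 hi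
      exact Finset.mem_Ico.2 ⟨by omega, by omega⟩
    · intro i hi
      have := Finset.mem_Ico.1 hi
      exact Finset.mem_Ico.2 ⟨by omega, by omega⟩
    · intro i hi
      have := Finset.mem_Ico.1 hi
      omega
    · intro i hi
      have := Finset.mem_Ico.1 hi
      omega
    · intro i hi
      rfl
  have hcount : N ≤ f N + ((Finset.Ico 1 N).filter (fun i => f N < f i)).card := by
    have h1 := Finset.card_filter_add_card_filter_not (s := Finset.Ico 1 N)
      (fun i => f N < f i)
    have h2 : ((Finset.Ico 1 N).filter (fun i => ¬ f N < f i)).card ≤ f N - 1 := by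
      have : ((Finset.Ico 1 N).filter (fun i => ¬ f N < f i)).card ≤
          (Finset.Ico 1 (f N)).card := by
        apply Finset.card_le_card_of_injOn f
        · intro i hi
          simp only [Finset.coe_filter, Set.mem_ofPred_eq, Finset.mem_Ico] at hi
          have h3 := hpos i (by omega) (by omega)
          have h4 : f i ≠ f N := fun h => by
            have := hinj i (by omega) N hNm h
            omega
          simp only [Finset.coe_Ico, Set.mem_Ico]
          omega
        · intro i hi j hj hij
          simp only [Finset.coe_filter, Set.mem_ofPred_eq, Finset.mem_Ico] at hi hj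
          exact hinj i (by omega) j (by omega) hij
      simpa using this
    have h3 := hpos N hN hNm
    simp only [Nat.card_Ico] at h1
    omega
  have hsum := Finset.sum_le_sum hpair
  rw [Finset.sum_add_distrib, Finset.sum_add_distrib, hrefl, ← Finset.sum_filter] at hsum
  simp only [Finset.sum_const, Nat.card_Ico, smul_eq_mul] at hsum
  have hI : ∑ i ∈ Finset.Icc 1 N, (i * d % m) = ∑ i ∈ Finset.Ico 1 N, f i + f N := by
    rw [← Finset.sum_Ico_succ_top (by omega)]
    rfl
  rw [hI, hfi]
  set S := ∑ i ∈ Finset.Ico 1 N, f i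
  set c := ((Finset.Ico 1 N).filter (fun i => f N < f i)).card
  have h7 : m * N ≤ m * (f N + c) := Nat.mul_le_mul_left _ hcount
  obtain ⟨e, he⟩ : ∃ e, m = N + 1 + e := ⟨m - (N + 1), by omega⟩
  obtain ⟨N', rfl⟩ : ∃ N', N = N' + 1 := ⟨N - 1, by omega⟩
  have h8 : m - (N' + 1) - 1 = e := by omega
  rw [h8]
  have h9 : (N' + 1 - 1) * f (N' + 1) = N' * f (N' + 1) := by rw [Nat.add_sub_cancel]
  rw [h9] at hsum
  have h10 : m * f (N' + 1) = (N' + 1 + 1 + e) * f (N' + 1) := by rw [← he]
  nlinarith [hsum, h7, h10]

theorem up_dvd {m a : ℕ} (hm : 0 < m) (i : ℕ) : CY.up m (i * (m * a)) = i * a := by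
  unfold CY.up
  rw [show i * (m * a) + m - 1 = (m - 1) + m * (i * a) by
    have : i * (m * a) = m * (i * a) := by ring
    omega]
  rw [Nat.add_mul_div_left _ _ hm, Nat.div_eq_of_lt (by omega), zero_add]

theorem up_coprime {m d i : ℕ} (hi : 0 < i) (him : i < m) (hd : m.Coprime d) :
    CY.up m (i * d) = i * d / m + 1 := by
  unfold CY.up
  have hm : 0 < m := by omega
  have h1 : 0 < i * d % m := by
    rcases Nat.eq_zero_or_pos (i * d % m) with h | h
    · have h2 : m ∣ i * d := Nat.dvd_of_mod_eq_zero h
      have h3 : m ∣ i := (Nat.Coprime.dvd_mul_right hd).1 h2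
      exact absurd (Nat.le_of_dvd hi h3) (by omega)
    · exact h
  have h2 := Nat.div_add_mod (i * d) m
  have h3 : i * d + m - 1 = (i * d % m + m - 1) + m * (i * d / m) := by omega
  rw [h3, Nat.add_mul_div_left _ _ hm, add_comm]
  congr 1
  have h4 := Nat.mod_lt (i * d) hm
  rw [Nat.div_eq_iff hm]
  omega

theorem sum_id_Icc (N : ℕ) : 2 * ∑ i ∈ Finset.Icc 1 N, i = N * (N + 1) := by
  have h := Finset.sum_range_id_mul_two (N + 1)
  have h2 : ∑ i ∈ Finset.range (N + 1), i = ∑ i ∈ Finset.Icc 1 N, i := by
    rw [Finset.range_eq_Ico, Finset.sum_eq_sum_Ico_succ_bot (by omega), zero_add]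
    rfl
  rw [h2, Nat.add_sub_cancel] at h
  linarith

/-- the arithmetic of the two cases -/
theorem arith {m d N T U : ℕ} (hm : 2 ≤ m) (hN : 0 < N) (hNm : N < m) (hd0 : 0 < d)
    (hd : m ∣ d ∨ m.Coprime d)
    (h : N * CY.r0 m d + U ≤ 2 * T + (m - N) * U) (hU : U < CY.up m (N * d)) :
    ∑ i ∈ Finset.Icc 1 N, CY.up m (i * d) ≤ T := by
  obtain ⟨e, he⟩ : ∃ e, m = N + 1 + e := ⟨m - (N + 1), by omega⟩
  have hmN : m - N = e + 1 := by omega
  rw [hmN] at h
  rcases hd with ⟨a, rfl⟩ | hd
  · have hr : CY.r0 m (m * a) = m * a := by simp [CY.r0]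
    have hm0 : 0 < m := by omega
    rw [hr] at h
    rw [up_dvd hm0] at hU
    rw [Finset.sum_congr rfl (fun i _ => up_dvd hm0 i), ← Finset.sum_mul]
    have h1 := sum_id_Icc N
    have h2 : e * U ≤ e * (N * a) := Nat.mul_le_mul_left _ hU.le
    set I := ∑ i ∈ Finset.Icc 1 N, i
    have h3 : 2 * (I * a) = N * (N + 1) * a := by rw [← h1]; ring
    have h4 : N * (m * a) = N * (N + 1) * a + e * (N * a) := by rw [he]; ring
    nlinarith
  · have hndvd : ¬ m ∣ d := fun hdv => by
      have := Nat.Coprime.eq_one_of_dvd hd hdv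
      omega
    have hr : CY.r0 m d = d + 1 := by simp [CY.r0, hndvd]
    rw [hr] at h
    rw [up_coprime hN hNm hd] at hU
    have hsum : ∑ i ∈ Finset.Icc 1 N, CY.up m (i * d) = ∑ i ∈ Finset.Icc 1 N, (i * d / m) + N := by
      rw [Finset.sum_congr rfl (fun i hi => up_coprime (m := m) (d := d) (i := i)
        (by have := Finset.mem_Icc.1 hi; omega) (by have := Finset.mem_Icc.1 hi; omega) hd),
        Finset.sum_add_distrib]
      simp
    rw [hsum]
    have h1 := rem_ineq hN hNm hd
    have h2 : m - N - 1 = e := by omega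
    rw [h2] at h1
    have h3 : m * ∑ i ∈ Finset.Icc 1 N, (i * d / m) + ∑ i ∈ Finset.Icc 1 N, (i * d % m) =
        (∑ i ∈ Finset.Icc 1 N, i) * d := by
      rw [Finset.mul_sum, ← Finset.sum_add_distrib, Finset.sum_mul]
      exact Finset.sum_congr rfl fun i _ => Nat.div_add_mod _ _
    have h4 := sum_id_Icc N
    have h5 := Nat.div_add_mod (N * d) m
    set I := ∑ i ∈ Finset.Icc 1 N, i
    set S := ∑ i ∈ Finset.Icc 1 N, (i * d / m)
    set S' := ∑ i ∈ Finset.Icc 1 N, (i * d % m)
    set F := N * d / m
    set f := N * d % m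
    have h6 : U ≤ F := by omega
    have h7 : e * U ≤ e * F := Nat.mul_le_mul_left _ h6
    -- N (d + 1) ≤ 2 T + e F
    have h8 : N * (d + 1) ≤ 2 * T + e * F := by
      have : (e + 1) * U = e * U + U := by ring
      omega
    have h9 : m * (N * (d + 1)) ≤ m * (2 * T + e * F) := Nat.mul_le_mul_left _ h8
    have h10 : e * (m * F + f) = e * (N * d) := by rw [h5]
    have h11 : (I * 2) * d = N * (N + 1) * d := by rw [← h4]; ring
    have h12 : m * (2 * (S + N)) ≤ m * (2 * T) := by
      have e1 : m * (2 * (S + N)) = 2 * (m * S) + 2 * (N * m) := by ring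
      have e2 : m * (N * (d + 1)) = N * (N + 1) * d + e * (N * d) + N * m := by
        have : m * (N * (d + 1)) = m * N * d + N * m := by ring
        rw [this]
        congr 1
        rw [he]
        ring
      have e3 : m * (2 * T + e * F) = m * (2 * T) + e * (m * F) := by ring
      have e4 : e * (m * F + f) = e * (m * F) + e * f := by ring
      have e5 : I * 2 * d = 2 * (I * d) := by ring
      rw [e1]
      rw [e2, e3] at h9
      rw [e4] at h10
      rw [e5] at h11
      omega
    have h13 := Nat.le_of_mul_le_mul_left h12 (by omega)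
    omega

theorem r0_eq {m d i : ℕ} (hm : 2 ≤ m) (hi : 0 < i) (him : i < m) (hd : m ∣ d ∨ m.Coprime d) :
    CY.up m (i * d) + CY.up m ((m - i) * d) = CY.r0 m d := by
  rcases hd with ⟨a, rfl⟩ | hd
  · have hr : CY.r0 m (m * a) = m * a := by simp [CY.r0]
    rw [up_dvd (by omega), up_dvd (by omega), hr, ← add_mul]
    congr 1
    omega
  · have hndvd : ¬ m ∣ d := fun hdv => by
      have := Nat.Coprime.eq_one_of_dvd hd hdv
      omega
    have hr : CY.r0 m d = d + 1 := by simp [CY.r0, hndvd]
    have hup := up_coprime hi him hd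
    have hup' := up_coprime (i := m - i) (by omega) (by omega) hd
    rw [hup, hup', hr]
    have hm0 : 0 < m := by omega
    have h1 := Nat.div_add_mod (i * d) m
    have h2 := Nat.div_add_mod ((m - i) * d) m
    have h3 : i * d + (m - i) * d = m * d := by rw [← add_mul]; congr 1; omega
    have h4 := Nat.mod_lt (i * d) hm0
    have h5 := Nat.mod_lt ((m - i) * d) hm0
    have h6 : 0 < i * d % m := by
      rcases Nat.eq_zero_or_pos (i * d % m) with h | h
      · have h2 : m ∣ i * d := Nat.dvd_of_mod_eq_zero h
        have h3 : m ∣ i := (Nat.Coprime.dvd_mul_right hd).1 h2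
        exact absurd (Nat.le_of_dvd hi h3) (by omega)
      · exact h
    set A := i * d / m
    set A' := (m - i) * d / m
    set r := i * d % m
    set r' := (m - i) * d % m
    -- m (A + A') + r + r' = m d, 0 < r + r' < 2 m
    have h7 : m * (A + A') + (r + r') = m * d := by rw [mul_add]; omega
    have h8 : m ∣ r + r' := (Nat.dvd_add_right ⟨A + A', rfl⟩).1 (h7 ▸ ⟨d, rfl⟩)
    obtain ⟨c, hc⟩ := h8
    have hc1 : c = 1 := by
      have h9 : 0 < c := by
        rcases Nat.eq_zero_or_pos c with h | h
        · rw [h, mul_zero] at hc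
          omega
        · exact h
      have h10 : c < 2 := by
        by_contra hcon
        push Not at hcon
        have : m * 2 ≤ m * c := Nat.mul_le_mul_left _ hcon
        omega
      omega
    rw [hc1, mul_one] at hc
    rw [hc] at h7
    have h11 : m * (A + A' + 1) = m * d := by rw [mul_add, mul_one]; exact h7
    have h12 := Nat.eq_of_mul_eq_mul_left hm0 h11
    omega

end Pool.Agent.Helper52.CY

namespace CY

open Pool.Agent.Helper52.CY

theorem surv_bound {m : ℕ} [NeZero m] (hm : 2 ≤ m) {s d : ℕ} (hsd : 0 < s + d)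
    (hd : m ∣ d ∨ m.Coprime d)
    {x : ZMod m → ℕ} (hx : Surv m s d x) (J : Finset (ZMod m)) (hJ : 0 ∉ J) :
    ∑ j ∈ J, x j ≤ ∑ i ∈ Finset.range J.card, (s + up m ((m - 1 - i) * d) - 1) := by
  by_cases hd0 : d = 0
  · subst hd0
    have h1 := hx.1 rfl
    have hup : up m 0 = 0 := by
      unfold up
      rw [zero_add]
      exact Nat.div_eq_of_lt (by omega)
    simp only [mul_zero, hup, add_zero, Finset.sum_const, Finset.card_range, smul_eq_mul]
    calc ∑ j ∈ J, x j ≤ ∑ _j ∈ J, (s - 1) := by
          refine Finset.sum_le_sum fun j hj => ?_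
          have := h1 j (fun h => hJ (h ▸ hj))
          omega
      _ = J.card * (s - 1) := by simp
  · have hx2 := hx.2 hd0
    set R := r0 m d with hR
    have hdpos : 0 < d := Nat.pos_of_ne_zero hd0
    have hRpos : 0 < R := by
      rw [hR]
      unfold r0
      omega
    -- the costs
    have he1 : ∀ j : ZMod m, j ≠ 0 → (1 : ℤ) ≤ (s : ℤ) + R - 1 - x j := by
      intro j hj
      have h1 := hx2 (Pi.single j m) (by rw [Pi.single_apply, if_neg hj.symm]) (by
        intro h
        have := congrFun h j
        rw [Pi.single_eq_same] at this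
        simp only [Pi.zero_apply] at this
        omega) (by
        rw [Finset.sum_eq_single j]
        · rw [Pi.single_eq_same]
          simp
        · intro b _ hb
          rw [Pi.single_eq_of_ne hb]
          simp
        · simp)
      rw [Finset.sum_eq_single j] at h1
      · rw [Pi.single_eq_same] at h1
        by_contra hcon
        push Not at hcon
        have h2 : (m : ℤ) * ((s : ℤ) + R - 1 - x j) ≤ 0 :=
          mul_nonpos_of_nonneg_of_nonpos (by positivity) (by omega)
        have h3 : (0 : ℤ) < R := by exact_mod_cast hRpos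
        omega
      · intro b _ hb
        rw [Pi.single_eq_of_ne hb]
        simp
      · simp
    set u : ZMod m → ℕ := fun j => ((s : ℤ) + R - 1 - x j).toNat with hu
    have hu1 : ∀ j : ZMod m, j ≠ 0 → (u j : ℤ) = (s : ℤ) + R - 1 - x j := by
      intro j hj
      rw [hu]
      exact Int.toNat_of_nonneg (by have := he1 j hj; omega)
    have H : ∀ v : ZMod m → ℕ, v 0 = 0 → v ≠ 0 → ∑ j, v j • j = 0 → R ≤ ∑ j, v j * u j := by
      intro v hv0 hv1 hv2
      have h1 := hx2 v hv0 hv1 (by
        rw [← hv2]
        exact Finset.sum_congr rfl fun j _ => (nsmul_eq_mul _ _).symm)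
      have h2 : ((∑ j, v j * u j : ℕ) : ℤ) = ∑ j, (v j : ℤ) * ((s : ℤ) + R - 1 - x j) := by
        push_cast
        refine Finset.sum_congr rfl fun j _ => ?_
        by_cases hj : j = 0
        · rw [hj, hv0]
          simp
        · rw [hu1 j hj]
      rw [← h2] at h1
      exact_mod_cast h1
    -- the claim
    have claim : ∀ N : ℕ, ∀ J : Finset (ZMod m), J.card = N → 0 ∉ J →
        ∑ i ∈ Finset.Icc 1 N, up m (i * d) ≤ ∑ j ∈ J, u j := by
      intro N
      induction N with
      | zero => intro J _ _; simp
      | succ N ih =>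
        intro J hJc hJ0
        obtain ⟨g, hg1, hg2, hg3⟩ := exists_enum u (N + 1) J hJc
        have hlast : N + 1 ∈ Finset.Icc 1 (N + 1) := Finset.mem_Icc.2 ⟨by omega, le_rfl⟩
        have hNm : N + 1 < m := by
          have h1 : (insert (0 : ZMod m) J).card ≤ Fintype.card (ZMod m) := Finset.card_le_univ _
          rw [Finset.card_insert_of_notMem hJ0, ZMod.card] at h1
          omega
        by_cases hcase : up m ((N + 1) * d) ≤ u (g (N + 1))
        · have h1 := ih (J.erase (g (N + 1)))
            (by rw [Finset.card_erase_of_mem (hg1 _ hlast), hJc]; rfl)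
            (fun h => hJ0 (Finset.mem_of_mem_erase h))
          rw [← Finset.sum_erase_add J u (hg1 _ hlast)]
          rw [show Finset.Icc 1 (N + 1) = insert (N + 1) (Finset.Icc 1 N) by
            ext i; simp only [Finset.mem_Icc, Finset.mem_insert]; omega,
            Finset.sum_insert (by simp)]
          omega
        · push Not at hcase
          have himg : (Finset.Icc 1 (N + 1)).image g = J := by
            apply Finset.eq_of_subset_of_card_le
            · intro y hy
              obtain ⟨i, hi, rfl⟩ := Finset.mem_image.1 hy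
              exact hg1 i hi
            · rw [Finset.card_image_of_injOn (fun i hi j hj h => hg2 i hi j hj h), hJc]
              simp
          have hT : ∑ i ∈ Finset.Icc 1 (N + 1), u (g i) = ∑ j ∈ J, u j := by
            rw [← himg, Finset.sum_image (fun i hi j hj h => hg2 i hi j hj h)]
          rw [← hT]
          have hc := cost u (ZMod.card m) H (N := N + 1) (by omega) g hg2
            (fun i hi h => hJ0 (h ▸ hg1 i hi)) hg3
          exact arith hm (by omega) hNm hdpos hd hc hcase
    have hJm : J.card < m := by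
      have h1 : (insert (0 : ZMod m) J).card ≤ Fintype.card (ZMod m) := Finset.card_le_univ _
      rw [Finset.card_insert_of_notMem hJ, ZMod.card] at h1
      omega
    have hcl := claim J.card J rfl hJ
    -- translate
    have h1 : (∑ j ∈ J, (x j : ℤ)) = J.card * ((s : ℤ) + R - 1) - ∑ j ∈ J, (u j : ℤ) := by
      rw [eq_sub_iff_add_eq, ← Finset.sum_add_distrib]
      rw [Finset.sum_congr rfl (g := fun _ => (s : ℤ) + R - 1) (fun j hj => by
        rw [hu1 j (fun h => hJ (h ▸ hj))]; ring)]
      simp only [Finset.sum_const, nsmul_eq_mul]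
    have h2 : ((∑ i ∈ Finset.range J.card, (s + up m ((m - 1 - i) * d) - 1) : ℕ) : ℤ) =
        J.card * ((s : ℤ) + R - 1) - ∑ i ∈ Finset.Icc 1 J.card, (up m (i * d) : ℤ) := by
      rw [eq_sub_iff_add_eq]
      rw [show (∑ i ∈ Finset.Icc 1 J.card, (up m (i * d) : ℤ)) =
        ∑ i ∈ Finset.range J.card, (up m ((i + 1) * d) : ℤ) by
          rw [Finset.range_eq_Ico, Finset.sum_Ico_add' (fun i => (up m (i * d) : ℤ)) 0 J.card 1]
          rfl]
      push_cast
      rw [← Finset.sum_add_distrib]
      rw [Finset.sum_congr rfl (g := fun _ => (s : ℤ) + R - 1) (fun i hi => by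
        have hi' := Finset.mem_range.1 hi
        have h3 := r0_eq (m := m) (d := d) (i := i + 1) hm (by omega) (by omega) hd
        rw [show m - (i + 1) = m - 1 - i by omega] at h3
        have h4 : 0 < up m ((m - 1 - i) * d) := by
          unfold up
          apply Nat.div_pos _ (by omega)
          have : 0 < (m - 1 - i) * d := Nat.mul_pos (by omega) hdpos
          omega
        rw [Nat.cast_sub (by omega)]
        rw [hR, ← h3]
        push_cast
        ring)]
      simp only [Finset.sum_const, nsmul_eq_mul, Finset.card_range]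
    have h3 : (∑ i ∈ Finset.Icc 1 J.card, (up m (i * d) : ℤ)) ≤ ∑ j ∈ J, (u j : ℤ) := by
      exact_mod_cast hcl
    have h4 : (∑ j ∈ J, (x j : ℤ)) ≤
        ((∑ i ∈ Finset.range J.card, (s + up m ((m - 1 - i) * d) - 1) : ℕ) : ℤ) := by
      rw [h1, h2]
      linarith
    exact_mod_cast h4

end CY
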